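import Pool.Agent.W5h49.Dist.Map

set_option autoImplicit false

open Real Set MeasureTheory

namespace Pool.Agent.W5h49.Dist

noncomputable section

variable {k : ℕ} {γ : ℝ}

theorem det_id_add (L : E (k + 1) →L[ℝ] ℝ) (v : E (k + 1)) :
    (ContinuousLinearMap.id ℝ (E (k + 1)) + L.smulRight v).det = 1 + L v := by
  have h : ((ContinuousLinearMap.id ℝ (E (k + 1)) + L.smulRight v : E (k + 1) →L[ℝ] E (k + 1)) :
      E (k + 1) →ₗ[ℝ] E (k + 1)) = LinearMap.transvection (L : E (k + 1) →ₗ[ℝ] ℝ) v := by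
    ext x i
    simp [LinearMap.transvection]
  rw [ContinuousLinearMap.det, h, LinearMap.transvection.det]
  rfl

theorem Fmap_hasFDerivAt {x : E (k + 1)} (hx : DifferentiableAt ℝ (ufun γ : E (k + 1) → ℝ) x) :
    HasFDerivAt (Fmap γ : E (k + 1) → E (k + 1))
      (ContinuousLinearMap.id ℝ (E (k + 1)) + (fderiv ℝ (ufun γ) x).smulRight (e0 k)) x :=
  (hasFDerivAt_id x).add (hx.hasFDerivAt.smul_const (e0 k))

theorem det_fderiv {x : E (k + 1)} (hx : DifferentiableAt ℝ (ufun γ : E (k + 1) → ℝ) x) :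
    (fderiv ℝ (Fmap γ : E (k + 1) → E (k + 1)) x).det = 1 + fderiv ℝ (ufun γ) x (e0 k) := by
  rw [(Fmap_hasFDerivAt hx).fderiv, det_id_add]

/-- the key lower bound of the Jacobian -/
theorem det_lower (hγ : 0 < γ) (hγ1 : γ ≤ 1) {x : E (k + 1)} (hxS : x ∈ Src k)
    (hx : DifferentiableAt ℝ (ufun γ : E (k + 1) → ℝ) x) :
    phi γ (mfun γ x) / mfun γ x ≤ (fderiv ℝ (Fmap γ : E (k + 1) → E (k + 1)) x).det := by
  rw [det_fderiv hx]
  set L := fderiv ℝ (ufun γ : E (k + 1) → ℝ) x with hL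
  have hsb := sfun_bd hγ (rho_nonneg x) hxS.2.le
  -- the one-dimensional function
  have hp : HasDerivAt (fun t : ℝ => Hfun γ (x 0 + t) (rho x)) (1 + L (e0 k)) 0 := by
    have h1 : HasDerivAt (fun t : ℝ => x + t • e0 k) (e0 k) 0 := by
      have h2 := ((hasDerivAt_id (0 : ℝ)).smul_const (e0 k)).const_add x
      simpa using h2
    have h3 : HasFDerivAt (ufun γ : E (k + 1) → ℝ) L (x + (0 : ℝ) • e0 k) := by
      rw [zero_smul, add_zero]
      exact hx.hasFDerivAt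
    have h4 := h3.comp_hasDerivAt (0 : ℝ) h1
    have h5 : HasDerivAt (fun t : ℝ => x 0 + t) 1 0 := by
      simpa using (hasDerivAt_id (0 : ℝ)).const_add (x 0)
    have h6 := h5.add h4
    have h7 : ((fun t : ℝ => x 0 + t) + ((ufun γ : E (k + 1) → ℝ) ∘ fun t : ℝ => x + t • e0 k)) =
        fun t : ℝ => Hfun γ (x 0 + t) (rho x) := by
      funext t
      simp only [Pi.add_apply, Function.comp, ufun, coord_add, rho_add]
      ring
    rw [h7] at h6
    exact h6
  have habs := hxS.1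
  rw [abs_lt] at habs
  have hH : ∀ t : ℝ, |t| ≤ 1 → Hfun γ t (rho x) = hfun γ t (sfun γ (rho x)) := by
    intro t ht
    rw [Hfun, clip_eq ht, clipr, min_eq_left hxS.2.le]
  rcases le_total 0 (x 0) with h0 | h0
  · have ht := hp.tendsto_slope_zero_right
    apply ge_of_tendsto ht
    have hnb : Ioo (0 : ℝ) (1 - x 0) ∈ nhdsWithin (0 : ℝ) (Ioi 0) :=
      Ioo_mem_nhdsGT (by linarith)
    filter_upwards [hnb] with t ht
    rw [zero_add, add_zero, hH _ (by rw [abs_le]; constructor <;> linarith [ht.1, ht.2]),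
      hH _ (by rw [abs_le]; constructor <;> linarith)]
    have h8 := hfun_lower hγ hγ1 h0 (by linarith [ht.1] : x 0 ≤ x 0 + t) (by linarith [ht.2])
      hsb.1 hsb.2
    rw [smul_eq_mul, mfun, inv_mul_eq_div, le_div_iff₀ ht.1]
    rw [abs_of_nonneg h0] at h8 ⊢
    linarith
  · have ht := hp.tendsto_slope_zero_left
    apply ge_of_tendsto ht
    have hnb : Ioo (-1 - x 0 : ℝ) 0 ∈ nhdsWithin (0 : ℝ) (Iio 0) :=
      Ioo_mem_nhdsLT (by linarith)
    filter_upwards [hnb] with t ht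
    rw [zero_add, add_zero, hH _ (by rw [abs_le]; constructor <;> linarith [ht.1, ht.2]),
      hH _ (by rw [abs_le]; constructor <;> linarith)]
    have h8 := hfun_lower hγ hγ1 (by linarith : 0 ≤ -x 0) (by linarith [ht.2] : -x 0 ≤ -(x 0 + t))
      (by linarith [ht.1]) hsb.1 hsb.2
    rw [hfun_neg, hfun_neg, abs_neg] at h8
    have htn : 0 < -t := by linarith [ht.2]
    have e : t⁻¹ • (hfun γ (x 0 + t) (sfun γ (rho x)) - hfun γ (x 0) (sfun γ (rho x))) =
        (-t)⁻¹ * (hfun γ (x 0) (sfun γ (rho x)) - hfun γ (x 0 + t) (sfun γ (rho x))) := by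
      rw [smul_eq_mul, inv_neg]; ring
    rw [e, mfun, inv_mul_eq_div, le_div_iff₀ htn]
    linarith

/-- integrability of the radial majorant -/
theorem radial_int {β : ℝ} (hβ : 0 < β) :
    IntegrableOn (fun r : ℝ => (-log (r / 2)) ^ (-(1 + β)) / r) (Ioo 0 (2 * exp (-1))) := by
  have key : IntegrableOn (fun r : ℝ => β * ((-log (r / 2)) ^ (-(1 + β)) / r))
      (Ioc 0 (2 * exp (-1))) := by
    apply intervalIntegral.integrableOn_deriv_of_nonneg (g := fun r => sfun β (r / 2))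
    · apply (sfun_cont hβ).comp (by fun_prop)
      intro x hx
      have := exp_neg_one_lt_one
      exact ⟨by linarith [hx.1], by linarith [hx.2]⟩
    · intro x hx
      have hx1 : x / 2 < 1 := by linarith [hx.2, exp_neg_one_lt_one]
      have hx0 : 0 < x / 2 := by linarith [hx.1]
      have h0 : HasDerivAt (fun r : ℝ => r / 2) (1 / 2) x := (hasDerivAt_id x).div_const 2
      have h1 : HasDerivAt (fun r : ℝ => -log (r / 2)) (-((1 / 2) / (x / 2))) x :=
        (h0.log hx0.ne').fun_neg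
      have h2 := h1.rpow_const (p := -β) (Or.inl (neglog_pos hx0 hx1).ne')
      have e : β * ((-log (x / 2)) ^ (-(1 + β)) / x) =
          -((1 / 2) / (x / 2)) * -β * (-log (x / 2)) ^ (-β - 1) := by
        rw [show -(1 + β) = -β - 1 by ring]
        have : x ≠ 0 := hx.1.ne'
        field_simp
      rw [e]
      exact h2
    · intro x hx
      have hx1 : x / 2 < 1 := by linarith [hx.2, exp_neg_one_lt_one]
      have hx0 : 0 < x / 2 := by linarith [hx.1]
      have := neglog_pos hx0 hx1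
      have h3 : 0 < x := hx.1
      positivity
  have key2 : IntegrableOn
      (fun r : ℝ => β⁻¹ * (β * ((-log (r / 2)) ^ (-(1 + β)) / r))) (Ioo 0 (2 * exp (-1))) :=
    IntegrableOn.mono_set (key.const_mul β⁻¹) Ioo_subset_Ioc_self
  have e : (fun r : ℝ => β⁻¹ * (β * ((-log (r / 2)) ^ (-(1 + β)) / r))) =
      fun r : ℝ => (-log (r / 2)) ^ (-(1 + β)) / r := by
    funext r
    rw [← mul_assoc, inv_mul_cancel₀ hβ.ne', one_mul]
  rwa [e] at key2

/-- `V(r) = s(r/2)/(r/2)` -/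
def Vfun (γ r : ℝ) : ℝ := sfun γ (r / 2) / (r / 2)

/-- `W(y) = s(M)/M` -/
def Wfun (γ : ℝ) (y : E (k + 1)) : ℝ := sfun γ (Mfun y) / Mfun y

theorem V_int (hγn : 1 < (k + 1 : ℝ) * γ) :
    IntegrableOn (fun y : E (k + 1) => Vfun γ ‖y‖ ^ (k + 1)) (Metric.ball 0 (2 * exp (-1))) := by
  rw [integrableOn_fun_norm_addHaar volume (f := fun r => Vfun γ r ^ (k + 1))]
  have hdim : Module.finrank ℝ (E (k + 1)) - 1 = k := by simp
  rw [hdim]
  have h := (radial_int (β := (k + 1 : ℝ) * γ - 1) (by linarith)).const_mul (2 ^ (k + 1))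
  refine IntegrableOn.congr_fun h ?_ measurableSet_Ioo
  intro r hr
  have hr0 : 0 < r := hr.1
  have hr1 : r / 2 < 1 := by linarith [hr.2, exp_neg_one_lt_one]
  have hl := neglog_pos (by linarith : 0 < r / 2) hr1
  simp only [smul_eq_mul, Vfun, sfun]
  rw [show -(1 + ((k + 1 : ℝ) * γ - 1)) = -γ * ((k + 1 : ℕ) : ℝ) by push_cast; ring,
    rpow_mul hl.le, rpow_natCast, div_pow, div_pow]
  field_simp
  ring

theorem Mfun_ge (y : E (k + 1)) : ‖y‖ / 2 ≤ Mfun y := by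
  have h1 := norm_le y
  have h2 : |y 0| ≤ Mfun y := le_max_left _ _
  have h3 : rho y ≤ Mfun y := le_max_right _ _
  linarith

theorem W_le (hγ : 0 < γ) (hγ1 : γ ≤ 1) {y : E (k + 1)} (hy : y ∈ Tgt k) (h0 : y ≠ 0) :
    Wfun γ y ≤ Vfun γ ‖y‖ := by
  have hM := Mfun_pos h0
  have hMe := Mfun_lt hy
  have hM1 : Mfun y < 1 := hMe.trans exp_neg_one_lt_one
  have hr : 0 < ‖y‖ / 2 := by have := norm_pos_iff.mpr h0; linarith
  have hle := Mfun_ge y
  have hr1 : ‖y‖ / 2 < 1 := hle.trans_lt hM1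
  have hs := sfun_pos (γ := γ) hM hM1
  have hs' := sfun_pos (γ := γ) hr hr1
  have hG := G_mono hγ hγ1 hs' (sfun_mono hγ hr hle hM1) (sfun_le_one hγ hM hMe.le)
  rw [phi_sfun hγ hM hM1, phi_sfun hγ hr hr1] at hG
  rw [Wfun, Vfun]
  rw [div_le_div_iff₀ hs' hs] at hG
  rw [div_le_div_iff₀ hM hr]
  linarith

theorem W_nonneg {y : E (k + 1)} (hy : y ∈ Tgt k) : 0 ≤ Wfun γ y := by
  rcases eq_or_ne y 0 with h | h
  · rw [h, Wfun]
    have : Mfun (0 : E (k + 1)) = 0 := by simp [Mfun, rho]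
    rw [this, div_zero]
  · have hM := Mfun_pos h
    exact (div_pos (sfun_pos hM ((Mfun_lt hy).trans exp_neg_one_lt_one)) hM).le

theorem W_lint (hγ : 0 < γ) (hγ1 : γ ≤ 1) (hγn : 1 < (k + 1 : ℝ) * γ) :
    ∫⁻ y in Tgt k, ENNReal.ofReal (Wfun γ y ^ (k + 1)) < ⊤ := by
  have hsub : Tgt k ⊆ Metric.ball 0 (2 * exp (-1)) := by
    intro y hy
    rw [Metric.mem_ball, dist_zero_right]
    have := Mfun_ge y
    have := Mfun_lt hy
    linarith
  have h1 := (V_int (k := k) hγn).mono_set hsub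
  have h2 : ∫⁻ y in Tgt k, ENNReal.ofReal (Vfun γ ‖y‖ ^ (k + 1)) < ⊤ :=
    h1.lintegral_lt_top
  refine lt_of_le_of_lt ?_ h2
  have hne : ∀ᵐ y ∂(volume.restrict (Tgt k)), y ≠ (0 : E (k + 1)) := by
    apply ae_restrict_of_ae
    have : volume ({0} : Set (E (k + 1))) = 0 := measure_singleton 0
    exact (measure_eq_zero_iff_ae_notMem).mp this
  have hmem : ∀ᵐ y ∂(volume.restrict (Tgt k)), y ∈ Tgt k :=
    ae_restrict_mem isOpen_Tgt.measurableSet
  apply lintegral_mono_ae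
  filter_upwards [hne, hmem] with y h0 hy
  exact ENNReal.ofReal_le_ofReal (pow_le_pow_left₀ (W_nonneg hy) (W_le hγ hγ1 hy h0) _)

/-- good points -/
def Good (k : ℕ) (γ : ℝ) : Set (E (k + 1)) :=
  {x | x ∈ Src k ∧ DifferentiableAt ℝ (ufun γ : E (k + 1) → ℝ) x ∧ x ≠ 0}

theorem Good_meas : MeasurableSet (Good k γ) := by
  have h : Good k γ = Src k ∩ ({x | DifferentiableAt ℝ (ufun γ : E (k + 1) → ℝ) x} ∩ {0}ᶜ) := by
    ext x
    simp only [Good, mem_ofPred_eq, mem_inter_iff, mem_compl_iff, mem_singleton_iff, ne_eq]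
  rw [h]
  exact isOpen_Src.measurableSet.inter
    ((measurableSet_of_differentiableAt ℝ _).inter (measurableSet_singleton 0).compl)

theorem ae_good (hγ : 0 < γ) (hγ1 : γ ≤ 1) : ∀ᵐ x ∂(volume.restrict (Src k)), x ∈ Good k γ := by
  have h1 : ∀ᵐ x ∂(volume.restrict (Src k)), DifferentiableAt ℝ (ufun γ : E (k + 1) → ℝ) x :=
    ae_restrict_of_ae (ufun_lipW hγ hγ1).ae_differentiableAt
  have hne : ∀ᵐ y ∂(volume.restrict (Src k)), y ≠ (0 : E (k + 1)) := by
    apply ae_restrict_of_ae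
    have : volume ({0} : Set (E (k + 1))) = 0 := measure_singleton 0
    exact (measure_eq_zero_iff_ae_notMem).mp this
  filter_upwards [h1, hne, ae_restrict_mem isOpen_Src.measurableSet] with x a b c
  exact ⟨c, a, b⟩

theorem w_lint (hγ : 0 < γ) (hγ1 : γ ≤ 1) (hγn : 1 < (k + 1 : ℝ) * γ) :
    ∫⁻ x in Good k γ, ENNReal.ofReal ((mfun γ x / phi γ (mfun γ x)) ^ k) < ⊤ := by
  have hinj : InjOn (Fmap γ : E (k + 1) → E (k + 1)) (Good k γ) := by
    intro x hx y hy hxy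
    rw [← Gmap_Fmap hγ hx.1, ← Gmap_Fmap hγ hy.1, hxy]
  have hcv := lintegral_image_eq_lintegral_abs_det_fderiv_mul volume (Good_meas (k := k) (γ := γ))
    (f := Fmap γ) (f' := fderiv ℝ (Fmap γ))
    (fun x hx => ((Fmap_hasFDerivAt hx.2.1).differentiableAt.hasFDerivAt).hasFDerivWithinAt) hinj
    (fun y => ENNReal.ofReal (Wfun γ y ^ (k + 1)))
  have himg : Fmap γ '' (Good k γ) ⊆ Tgt k := by
    rintro _ ⟨x, hx, rfl⟩
    exact Fmap_mem hγ hx.1
  refine lt_of_le_of_lt ?_ (W_lint hγ hγ1 hγn)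
  refine le_trans ?_ (lintegral_mono_set himg)
  rw [hcv]
  apply lintegral_mono_ae
  filter_upwards [ae_restrict_mem Good_meas] with x hx
  have hm := mfun_pos hγ hx.1 hx.2.2
  have hφ := phi_pos (γ := γ) (mfun γ x)
  have hdet := det_lower hγ hγ1 hx.1 hx.2.1
  have hW : Wfun γ (Fmap γ x) = mfun γ x / phi γ (mfun γ x) := by
    rw [Wfun, Mfun_Fmap hγ hx.1 hx.2.2, sfun_phi hγ hm]
  rw [hW, ← ENNReal.ofReal_mul (abs_nonneg _)]
  apply ENNReal.ofReal_le_ofReal
  have hw : 0 < mfun γ x / phi γ (mfun γ x) := div_pos hm hφ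
  have hinv : phi γ (mfun γ x) / mfun γ x = (mfun γ x / phi γ (mfun γ x))⁻¹ := by
    rw [inv_div]
  have h1 : (mfun γ x / phi γ (mfun γ x))⁻¹ ≤ |(fderiv ℝ (Fmap γ : E (k + 1) → E (k + 1)) x).det| := by
    rw [← hinv]; exact hdet.trans (le_abs_self _)
  calc (mfun γ x / phi γ (mfun γ x)) ^ k
      = (mfun γ x / phi γ (mfun γ x))⁻¹ * (mfun γ x / phi γ (mfun γ x)) ^ (k + 1) := by
        rw [pow_succ]
        field_simp
    _ ≤ _ := mul_le_mul_of_nonneg_right h1 (by positivity)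

end

end Pool.Agent.W5h49.Dist
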