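import Pool.Agent.W5h49.Dist.OneD

set_option autoImplicit false

open Real Set

namespace Pool.Agent.W5h49.Dist

noncomputable section

/-- Euclidean space. -/
abbrev E (n : ℕ) := EuclideanSpace ℝ (Fin n)

variable {k : ℕ} {γ : ℝ}

/-- first unit vector -/
def e0 (k : ℕ) : E (k + 1) := EuclideanSpace.single 0 1

/-- distance to the first axis -/
def rho (x : E (k + 1)) : ℝ := ‖x - x 0 • e0 k‖

theorem e0_zero : (e0 k) 0 = 1 := by simp [e0]

theorem norm_e0 : ‖e0 k‖ = 1 := by simp [e0]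

theorem rho_nonneg (x : E (k + 1)) : 0 ≤ rho x := norm_nonneg _

theorem coord_add (x : E (k + 1)) (c : ℝ) : (x + c • e0 k) 0 = x 0 + c := by
  simp [e0]

theorem rho_add (x : E (k + 1)) (c : ℝ) : rho (x + c • e0 k) = rho x := by
  rw [rho, rho, coord_add, add_smul]
  congr 1
  abel

theorem abs_coord_le (x : E (k + 1)) : |x 0| ≤ ‖x‖ := by
  have := PiLp.norm_apply_le x 0
  rwa [Real.norm_eq_abs] at this

theorem norm_le (x : E (k + 1)) : ‖x‖ ≤ |x 0| + rho x := by
  have h : x = x 0 • e0 k + (x - x 0 • e0 k) := by abel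
  calc ‖x‖ = ‖x 0 • e0 k + (x - x 0 • e0 k)‖ := by rw [← h]
    _ ≤ ‖x 0 • e0 k‖ + ‖x - x 0 • e0 k‖ := norm_add_le _ _
    _ = |x 0| + rho x := by rw [norm_smul, norm_e0, mul_one, Real.norm_eq_abs, rho]

theorem coord_lip (x y : E (k + 1)) : |x 0 - y 0| ≤ ‖x - y‖ := by
  have := abs_coord_le (x - y)
  simpa using this

theorem rho_lip (x y : E (k + 1)) : |rho x - rho y| ≤ 2 * ‖x - y‖ := by
  have h1 : |rho x - rho y| ≤ ‖(x - x 0 • e0 k) - (y - y 0 • e0 k)‖ := abs_norm_sub_norm_le _ _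
  have h2 : (x - x 0 • e0 k) - (y - y 0 • e0 k) = (x - y) - (x 0 - y 0) • e0 k := by
    rw [sub_smul]; abel
  rw [h2] at h1
  have h3 := norm_sub_le (x - y) ((x 0 - y 0) • e0 k)
  rw [norm_smul, norm_e0, mul_one, Real.norm_eq_abs] at h3
  have h4 := coord_lip x y
  linarith

theorem rho_le (x : E (k + 1)) : rho x ≤ 2 * ‖x‖ := by
  have := rho_lip x 0
  have h0 : rho (0 : E (k + 1)) = 0 := by simp [rho]
  rw [h0, sub_zero, sub_zero, abs_of_nonneg (rho_nonneg x)] at this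
  exact this

theorem eq_zero_of (x : E (k + 1)) (h0 : x 0 = 0) (h1 : rho x = 0) : x = 0 := by
  have := norm_le x
  rw [h0, h1, abs_zero, add_zero] at this
  exact norm_le_zero_iff.mp this

theorem cont_coord : Continuous (fun x : E (k + 1) => x 0) := by fun_prop

theorem cont_rho : Continuous (rho : E (k + 1) → ℝ) := by
  unfold rho
  fun_prop

/-- clipping -/
def clip (t : ℝ) : ℝ := max (-1) (min t 1)

theorem clip_abs (t : ℝ) : |clip t| ≤ 1 := by
  rw [clip, abs_le]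
  exact ⟨le_max_left _ _, max_le (by norm_num) (min_le_right _ _)⟩

theorem clip_lip (t t' : ℝ) : |clip t - clip t'| ≤ |t - t'| := by
  rw [clip, clip]
  exact (abs_max_sub_max_le_max _ _ _ _).trans (max_le (by simp) ((abs_min_sub_min_le_max _ _ _ _).trans
    (max_le le_rfl (by simp))))

theorem clip_eq {t : ℝ} (h : |t| ≤ 1) : clip t = t := by
  rw [abs_le] at h
  rw [clip, min_eq_left h.2, max_eq_right h.1]

/-- clipping the radius -/
def clipr (r : ℝ) : ℝ := min r (exp (-1))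

theorem clipr_lip (t t' : ℝ) : |clipr t - clipr t'| ≤ |t - t'| := by
  rw [clipr, clipr]
  exact (abs_min_sub_min_le_max _ _ _ _).trans (max_le le_rfl (by simp))

/-- clipped version of `h(t, s(r))`. -/
def Hfun (γ t r : ℝ) : ℝ := hfun γ (clip t) (sfun γ (clipr r))

theorem sfun_bd (hγ : 0 < γ) {r : ℝ} (h0 : 0 ≤ r) (h1 : r ≤ exp (-1)) :
    0 ≤ sfun γ r ∧ sfun γ r ≤ 1 := by
  rcases h0.eq_or_lt with h | h
  · rw [← h, sfun_zero hγ]; exact ⟨le_rfl, zero_le_one⟩
  · exact ⟨(sfun_pos h (h1.trans_lt exp_neg_one_lt_one)).le, sfun_le_one hγ h h1⟩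

theorem clipr_bd {r : ℝ} (h0 : 0 ≤ r) : 0 ≤ clipr r ∧ clipr r ≤ exp (-1) :=
  ⟨le_min h0 (exp_pos _).le, min_le_right _ _⟩

theorem Hfun_lip (hγ : 0 < γ) (hγ1 : γ ≤ 1) {t t' r r' : ℝ} (hr : 0 ≤ r) (hr' : 0 ≤ r') :
    |Hfun γ t r - Hfun γ t' r'| ≤ 2 / γ * |t - t'| + |r - r'| := by
  obtain ⟨c0, c1⟩ := clipr_bd hr
  obtain ⟨c0', c1'⟩ := clipr_bd hr'
  have e1 : |Hfun γ t r - Hfun γ t' r| ≤ 2 / γ * |t - t'| := by
    have h1 := hfun_lip_t hγ hγ1 (clip_abs t') (clip_abs t) (sfun_bd hγ c0 c1).1 (sfun_bd hγ c0 c1).2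
    have h2 := clip_lip t t'
    have h3 : 0 ≤ 2 / γ := by positivity
    exact h1.trans (mul_le_mul_of_nonneg_left h2 h3)
  have e2 : |Hfun γ t' r - Hfun γ t' r'| ≤ |r - r'| := by
    have h2 := clipr_lip r r'
    rcases le_total (clipr r) (clipr r') with h | h
    · have h1 := hfun_lip_r hγ hγ1 (clip_abs t') c0 h c1'
      rw [abs_sub_comm (clipr r), abs_of_nonneg (by linarith)] at h2
      rw [Hfun, Hfun, abs_sub_comm]
      exact h1.trans h2
    · have h1 := hfun_lip_r hγ hγ1 (clip_abs t') c0' h c1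
      rw [abs_of_nonneg (by linarith)] at h2
      rw [Hfun, Hfun]
      exact h1.trans h2
  calc |Hfun γ t r - Hfun γ t' r'| = |(Hfun γ t r - Hfun γ t' r) + (Hfun γ t' r - Hfun γ t' r')| := by
        congr 1; ring
    _ ≤ _ := (abs_add_le _ _).trans (add_le_add e1 e2)

/-- displacement -/
def ufun (γ : ℝ) (x : E (k + 1)) : ℝ := Hfun γ (x 0) (rho x) - x 0

/-- the homeomorphism -/
def Fmap (γ : ℝ) (x : E (k + 1)) : E (k + 1) := x + ufun γ x • e0 k

theorem ufun_lip (hγ : 0 < γ) (hγ1 : γ ≤ 1) (x y : E (k + 1)) :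
    |ufun γ x - ufun γ y| ≤ (2 / γ + 3) * ‖x - y‖ := by
  have h1 := Hfun_lip hγ hγ1 (t := x 0) (t' := y 0) (rho_nonneg x) (rho_nonneg y)
  have h2 := coord_lip x y
  have h3 := rho_lip x y
  have h4 : 0 < 2 / γ := by positivity
  have h5 := mul_le_mul_of_nonneg_left h2 h4.le
  have h6 : ufun γ x - ufun γ y = (Hfun γ (x 0) (rho x) - Hfun γ (y 0) (rho y)) - (x 0 - y 0) := by
    rw [ufun, ufun]; ring
  rw [h6]
  refine (abs_sub _ _).trans ?_
  linarith

theorem ufun_lipW (hγ : 0 < γ) (hγ1 : γ ≤ 1) :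
    LipschitzWith (Real.toNNReal (2 / γ + 3)) (ufun γ : E (k + 1) → ℝ) := by
  apply LipschitzWith.of_dist_le_mul
  intro x y
  rw [Real.coe_toNNReal _ (by positivity), Real.dist_eq, dist_eq_norm]
  exact ufun_lip hγ hγ1 x y

theorem Fmap_lipW (hγ : 0 < γ) (hγ1 : γ ≤ 1) :
    LipschitzWith (Real.toNNReal (2 / γ + 4)) (Fmap γ : E (k + 1) → E (k + 1)) := by
  apply LipschitzWith.of_dist_le_mul
  intro x y
  rw [Real.coe_toNNReal _ (by positivity), dist_eq_norm, dist_eq_norm]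
  have h : Fmap γ x - Fmap γ y = (x - y) + (ufun γ x - ufun γ y) • e0 k := by
    rw [Fmap, Fmap, sub_smul]; abel
  rw [h]
  refine (norm_add_le _ _).trans ?_
  rw [norm_smul, norm_e0, mul_one, Real.norm_eq_abs]
  have := ufun_lip hγ hγ1 x y
  linarith

theorem Fmap_zero (x : E (k + 1)) : (Fmap γ x) 0 = Hfun γ (x 0) (rho x) := by
  rw [Fmap, coord_add, ufun]; ring

theorem Fmap_rho (x : E (k + 1)) : rho (Fmap γ x) = rho x := by
  rw [Fmap, rho_add]

/-- source -/
def Src (k : ℕ) : Set (E (k + 1)) := {x | |x 0| < 1 ∧ rho x < exp (-1)}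

/-- target -/
def Tgt (k : ℕ) : Set (E (k + 1)) := {x | |x 0| < exp (-1) ∧ rho x < exp (-1)}

theorem isOpen_Src : IsOpen (Src k) :=
  (isOpen_lt (cont_coord.abs) continuous_const).inter (isOpen_lt cont_rho continuous_const)

theorem isOpen_Tgt : IsOpen (Tgt k) :=
  (isOpen_lt (cont_coord.abs) continuous_const).inter (isOpen_lt cont_rho continuous_const)

/-- `m(x)` -/
def mfun (γ : ℝ) (x : E (k + 1)) : ℝ := max |x 0| (sfun γ (rho x))

/-- `M(y)` -/
def Mfun (y : E (k + 1)) : ℝ := max |y 0| (rho y)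

/-- the inverse map -/
def Gmap (γ : ℝ) (y : E (k + 1)) : E (k + 1) :=
  y + (y 0 * (sfun γ (Mfun y) / Mfun y) - y 0) • e0 k

theorem Gmap_zero (y : E (k + 1)) : (Gmap γ y) 0 = y 0 * (sfun γ (Mfun y) / Mfun y) := by
  rw [Gmap, coord_add]; ring

theorem Gmap_rho (y : E (k + 1)) : rho (Gmap γ y) = rho y := by
  rw [Gmap, rho_add]

theorem Fmap_zero_of {x : E (k + 1)} (hx : x ∈ Src k) :
    (Fmap γ x) 0 = x 0 * (phi γ (mfun γ x) / mfun γ x) := by
  rw [Fmap_zero, Hfun, clip_eq hx.1.le, clipr, min_eq_left hx.2.le, hfun, mfun]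

theorem mfun_pos (_hγ : 0 < γ) {x : E (k + 1)} (hx : x ∈ Src k) (h0 : x ≠ 0) : 0 < mfun γ x := by
  rw [mfun, lt_max_iff]
  by_contra hcon
  rw [not_or, not_lt, not_lt] at hcon
  apply h0
  have h1 : x 0 = 0 := abs_nonpos_iff.mp hcon.1
  apply eq_zero_of x h1
  by_contra h2
  have h3 : 0 < rho x := lt_of_le_of_ne (rho_nonneg x) (Ne.symm h2)
  have := sfun_pos (γ := γ) h3 (hx.2.trans exp_neg_one_lt_one)
  linarith [hcon.2]

theorem mfun_lt (hγ : 0 < γ) {x : E (k + 1)} (hx : x ∈ Src k) : mfun γ x < 1 := by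
  rw [mfun, max_lt_iff]
  refine ⟨hx.1, ?_⟩
  rcases (rho_nonneg x).eq_or_lt with h | h
  · rw [← h, sfun_zero hγ]; exact one_pos
  · exact sfun_lt_one hγ h hx.2

theorem Mfun_pos {y : E (k + 1)} (h0 : y ≠ 0) : 0 < Mfun y := by
  rw [Mfun, lt_max_iff]
  by_contra hcon
  rw [not_or, not_lt, not_lt] at hcon
  exact h0 (eq_zero_of y (abs_nonpos_iff.mp hcon.1) (le_antisymm hcon.2 (rho_nonneg y)))

theorem Mfun_lt {y : E (k + 1)} (hy : y ∈ Tgt k) : Mfun y < exp (-1) := max_lt hy.1 hy.2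

theorem Mfun_Fmap (hγ : 0 < γ) {x : E (k + 1)} (hx : x ∈ Src k) (h0 : x ≠ 0) :
    Mfun (Fmap γ x) = phi γ (mfun γ x) := by
  have hm := mfun_pos hγ hx h0
  have hφ := phi_pos (γ := γ) (mfun γ x)
  rw [Mfun, Fmap_zero_of hx, Fmap_rho, abs_mul, abs_of_pos (div_pos hφ hm)]
  have e : |x 0| * (phi γ (mfun γ x) / mfun γ x) = (|x 0| / mfun γ x) * phi γ (mfun γ x) := by ring
  rw [e]
  have hrho : rho x ≤ phi γ (mfun γ x) := by
    rcases (rho_nonneg x).eq_or_lt with h | h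
    · rw [← h]; exact hφ.le
    · have h1 := hx.2.trans exp_neg_one_lt_one
      calc rho x = phi γ (sfun γ (rho x)) := (phi_sfun hγ h h1).symm
        _ ≤ phi γ (mfun γ x) := phi_mono hγ (sfun_pos h h1) (le_max_right _ _)
  have hle : |x 0| / mfun γ x ≤ 1 := (div_le_one hm).mpr (le_max_left _ _)
  rcases le_total (sfun γ (rho x)) |x 0| with h | h
  · have h1 : mfun γ x = |x 0| := max_eq_left h
    have h2 : |x 0| / mfun γ x = 1 := by rw [h1]; exact div_self (by rw [← h1]; exact hm.ne')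
    rw [h2, one_mul]
    exact max_eq_left hrho
  · have h1 : mfun γ x = sfun γ (rho x) := max_eq_right h
    have h3 : 0 < rho x := by
      rcases (rho_nonneg x).eq_or_lt with h | h
      · rw [h1, ← h, sfun_zero hγ] at hm
        exact absurd hm (lt_irrefl _)
      · exact h
    have h2 : phi γ (mfun γ x) = rho x := by
      rw [h1, phi_sfun hγ h3 (hx.2.trans exp_neg_one_lt_one)]
    rw [h2]
    apply max_eq_right
    nlinarith

theorem mfun_Gmap (hγ : 0 < γ) {y : E (k + 1)} (hy : y ∈ Tgt k) (h0 : y ≠ 0) :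
    mfun γ (Gmap γ y) = sfun γ (Mfun y) := by
  have hM := Mfun_pos h0
  have hM1 : Mfun y < 1 := (Mfun_lt hy).trans exp_neg_one_lt_one
  have hs := sfun_pos (γ := γ) hM hM1
  rw [mfun, Gmap_zero, Gmap_rho, abs_mul, abs_of_pos (div_pos hs hM)]
  have e : |y 0| * (sfun γ (Mfun y) / Mfun y) = (|y 0| / Mfun y) * sfun γ (Mfun y) := by ring
  rw [e]
  have hrho : sfun γ (rho y) ≤ sfun γ (Mfun y) := by
    rcases (rho_nonneg y).eq_or_lt with h | h
    · rw [← h, sfun_zero hγ]; exact hs.le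
    · exact sfun_mono hγ h (le_max_right _ _) hM1
  have hle : |y 0| / Mfun y ≤ 1 := (div_le_one hM).mpr (le_max_left _ _)
  rcases le_total (rho y) |y 0| with h | h
  · have h1 : Mfun y = |y 0| := max_eq_left h
    have h2 : |y 0| / Mfun y = 1 := by rw [h1]; exact div_self (by rw [← h1]; exact hM.ne')
    rw [h2, one_mul]
    exact max_eq_left hrho
  · have h1 : Mfun y = rho y := max_eq_right h
    rw [h1] at hs hM ⊢
    apply max_eq_right
    rw [h1] at hle
    nlinarith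

theorem Fmap_mem (hγ : 0 < γ) {x : E (k + 1)} (hx : x ∈ Src k) : Fmap γ x ∈ Tgt k := by
  refine ⟨?_, by rw [Fmap_rho]; exact hx.2⟩
  rcases eq_or_ne x 0 with h | h
  · rw [Fmap_zero_of hx, h]
    simp [exp_pos]
  · have h1 := Mfun_Fmap hγ hx h
    have h2 := phi_lt hγ (mfun_pos hγ hx h) (mfun_lt hγ hx)
    have h3 : |(Fmap γ x) 0| ≤ Mfun (Fmap γ x) := le_max_left _ _
    linarith

theorem Gmap_mem (hγ : 0 < γ) {y : E (k + 1)} (hy : y ∈ Tgt k) : Gmap γ y ∈ Src k := by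
  refine ⟨?_, by rw [Gmap_rho]; exact hy.2⟩
  rcases eq_or_ne y 0 with h | h
  · rw [Gmap_zero, h]
    simp
  · have h1 := mfun_Gmap hγ hy h
    have h2 := sfun_lt_one hγ (Mfun_pos h) (Mfun_lt hy)
    have h3 : |(Gmap γ y) 0| ≤ mfun γ (Gmap γ y) := le_max_left _ _
    linarith

theorem eq_of (x y : E (k + 1)) (c : ℝ) (h : x = y + c • e0 k) (h0 : x 0 = y 0) : x = y := by
  have h1 : x 0 = y 0 + c := by rw [h, coord_add]
  have h2 : c = 0 := by linarith
  rw [h, h2, zero_smul, add_zero]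

theorem zero_mem_Src : (0 : E (k + 1)) ∈ Src k := by
  refine ⟨?_, ?_⟩
  · simp
  · simp [rho, exp_pos]

theorem zero_mem_Tgt : (0 : E (k + 1)) ∈ Tgt k := by
  refine ⟨?_, ?_⟩
  · simp [exp_pos]
  · simp [rho, exp_pos]

theorem Gmap_Fmap (hγ : 0 < γ) {x : E (k + 1)} (hx : x ∈ Src k) : Gmap γ (Fmap γ x) = x := by
  apply eq_of _ _ (ufun γ x + ((Fmap γ x) 0 * (sfun γ (Mfun (Fmap γ x)) / Mfun (Fmap γ x)) -
    (Fmap γ x) 0))
  · rw [Gmap, add_smul, ← add_assoc]
    congr 1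
  · rw [Gmap_zero, Fmap_zero_of hx]
    rcases eq_or_ne x 0 with h | h
    · rw [h]; simp
    · have hm := mfun_pos hγ hx h
      have hφ := phi_pos (γ := γ) (mfun γ x)
      rw [Mfun_Fmap hγ hx h, sfun_phi hγ hm]
      field_simp

theorem Fmap_Gmap (hγ : 0 < γ) {y : E (k + 1)} (hy : y ∈ Tgt k) : Fmap γ (Gmap γ y) = y := by
  apply eq_of _ _ ((y 0 * (sfun γ (Mfun y) / Mfun y) - y 0) + ufun γ (Gmap γ y))
  · rw [Fmap, add_smul, ← add_assoc]
    congr 1
  · rw [Fmap_zero_of (Gmap_mem hγ hy), Gmap_zero]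
    rcases eq_or_ne y 0 with h | h
    · rw [h]; simp
    · have hM := Mfun_pos h
      have hM1 : Mfun y < 1 := (Mfun_lt hy).trans exp_neg_one_lt_one
      have hs := sfun_pos (γ := γ) hM hM1
      rw [mfun_Gmap hγ hy h, phi_sfun hγ hM hM1]
      field_simp

theorem cont_Mfun : Continuous (Mfun : E (k + 1) → ℝ) := cont_coord.abs.max cont_rho

theorem Gmap_cont (hγ : 0 < γ) : ContinuousOn (Gmap γ : E (k + 1) → E (k + 1)) (Tgt k) := by
  have key : ContinuousOn (fun y : E (k + 1) => y 0 * (sfun γ (Mfun y) / Mfun y)) (Tgt k) := by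
    intro y hy
    rcases eq_or_ne y 0 with h | h
    · rw [h]
      have hs : ContinuousWithinAt (fun y : E (k + 1) => sfun γ (Mfun y)) (Tgt k) 0 := by
        have h1 : ContinuousWithinAt (sfun γ) (Ico 0 1) (Mfun (0 : E (k + 1))) := by
          apply sfun_cont hγ
          refine ⟨le_max_of_le_left (abs_nonneg _), ?_⟩
          exact (Mfun_lt zero_mem_Tgt).trans exp_neg_one_lt_one
        apply h1.comp cont_Mfun.continuousWithinAt
        intro z hz
        exact ⟨le_max_of_le_left (abs_nonneg _), (Mfun_lt hz).trans exp_neg_one_lt_one⟩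
      have hM0 : Mfun (0 : E (k + 1)) = 0 := by simp [Mfun, rho]
      rw [ContinuousWithinAt, hM0, sfun_zero hγ] at hs
      rw [ContinuousWithinAt]
      have hz : (0 : E (k + 1)) 0 * (sfun γ (Mfun (0 : E (k + 1))) / Mfun (0 : E (k + 1))) = 0 := by
        simp
      rw [hz]
      rw [tendsto_zero_iff_abs_tendsto_zero]
      refine squeeze_zero' (Filter.Eventually.of_forall fun z => abs_nonneg _) ?_ hs
      filter_upwards [self_mem_nhdsWithin] with z hz
      rcases eq_or_ne z 0 with h' | h'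
      · rw [h', hM0, sfun_zero hγ]
        simp
      · have hM := Mfun_pos h'
        have hM1 : Mfun z < 1 := (Mfun_lt hz).trans exp_neg_one_lt_one
        have hs := sfun_pos (γ := γ) hM hM1
        simp only [Function.comp]
        rw [abs_mul, abs_of_pos (div_pos hs hM), ← mul_div_assoc, div_le_iff₀ hM, mul_comm]
        exact mul_le_mul_of_nonneg_left (le_max_left _ _) hs.le
    · have hM := Mfun_pos h
      have hM1 : Mfun y < 1 := (Mfun_lt hy).trans exp_neg_one_lt_one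
      have h1 : ContinuousAt (sfun γ) (Mfun y) :=
        (sfun_cont hγ).continuousAt (Ico_mem_nhds hM hM1)
      have h2 : ContinuousAt (fun y : E (k + 1) => sfun γ (Mfun y)) y :=
        ContinuousAt.comp (f := (Mfun : E (k + 1) → ℝ)) h1 cont_Mfun.continuousAt
      exact (cont_coord.continuousAt.mul (h2.div cont_Mfun.continuousAt hM.ne')).continuousWithinAt
  exact continuousOn_id.add ((key.sub cont_coord.continuousOn).smul continuousOn_const)

/-- the homeomorphism as an open partial homeomorphism -/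
def fhom (k : ℕ) (γ : ℝ) (hγ : 0 < γ) (hγ1 : γ ≤ 1) : OpenPartialHomeomorph (E (k + 1)) (E (k + 1)) where
  toFun := Fmap γ
  invFun := Gmap γ
  source := Src k
  target := Tgt k
  map_source' := fun _ hx => Fmap_mem hγ hx
  map_target' := fun _ hy => Gmap_mem hγ hy
  left_inv' := fun _ hx => Gmap_Fmap hγ hx
  right_inv' := fun _ hy => Fmap_Gmap hγ hy
  open_source := isOpen_Src
  open_target := isOpen_Tgt
  continuousOn_toFun := (Fmap_lipW hγ hγ1).continuous.continuousOn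
  continuousOn_invFun := Gmap_cont hγ

end

end Pool.Agent.W5h49.Dist
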