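import Mathlib

set_option autoImplicit false

open Real Set

namespace Pool.Agent.W5h49.Dist

noncomputable section

/-- `φ(m) = exp(-m^(-1/γ))`. -/
def phi (γ m : ℝ) : ℝ := exp (-(m ^ (-γ⁻¹)))

/-- `s(M) = (log(1/M))^(-γ)`. -/
def sfun (γ M : ℝ) : ℝ := (-log M) ^ (-γ)

variable {γ : ℝ}

theorem neglog_pos {M : ℝ} (h0 : 0 < M) (h1 : M < 1) : 0 < -log M := by
  have := log_neg h0 h1
  linarith

theorem one_le_neglog {M : ℝ} (h0 : 0 < M) (h1 : M ≤ exp (-1)) : 1 ≤ -log M := by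
  have := log_le_log h0 h1
  rw [log_exp] at this
  linarith

theorem exp_neg_one_lt_one : exp (-1) < 1 := by
  rw [exp_lt_one_iff]
  norm_num

theorem sfun_zero (hγ : 0 < γ) : sfun γ 0 = 0 := by
  rw [sfun, log_zero, neg_zero, zero_rpow (by linarith)]

theorem sfun_pos {M : ℝ} (h0 : 0 < M) (h1 : M < 1) : 0 < sfun γ M :=
  rpow_pos_of_pos (neglog_pos h0 h1) _

theorem sfun_le_one (hγ : 0 < γ) {M : ℝ} (h0 : 0 < M) (h1 : M ≤ exp (-1)) : sfun γ M ≤ 1 :=
  rpow_le_one_of_one_le_of_nonpos (one_le_neglog h0 h1) (by linarith)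

theorem sfun_lt_one (hγ : 0 < γ) {M : ℝ} (h0 : 0 < M) (h1 : M < exp (-1)) : sfun γ M < 1 := by
  apply rpow_lt_one_of_one_lt_of_neg _ (by linarith)
  have := log_lt_log h0 h1
  rw [log_exp] at this
  linarith

theorem sfun_mono (hγ : 0 < γ) {M M' : ℝ} (h0 : 0 < M) (h : M ≤ M') (h1 : M' < 1) :
    sfun γ M ≤ sfun γ M' := by
  apply rpow_le_rpow_of_nonpos (neglog_pos (h0.trans_le h) h1) _ (by linarith)
  have := log_le_log h0 h
  linarith

theorem phi_pos (m : ℝ) : 0 < phi γ m := exp_pos _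

theorem phi_mono (hγ : 0 < γ) {m m' : ℝ} (h0 : 0 < m) (h : m ≤ m') : phi γ m ≤ phi γ m' := by
  apply exp_le_exp.mpr
  have : m' ^ (-γ⁻¹) ≤ m ^ (-γ⁻¹) := rpow_le_rpow_of_nonpos h0 h (by
    have := inv_pos.mpr hγ
    linarith)
  linarith

theorem phi_one : phi γ 1 = exp (-1) := by rw [phi, one_rpow]

theorem phi_le (hγ : 0 < γ) {m : ℝ} (h0 : 0 < m) (h1 : m ≤ 1) : phi γ m ≤ exp (-1) := by
  rw [← phi_one (γ := γ)]
  exact phi_mono hγ h0 h1

theorem phi_lt (hγ : 0 < γ) {m : ℝ} (h0 : 0 < m) (h1 : m < 1) : phi γ m < exp (-1) := by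
  rw [phi, exp_lt_exp]
  have : 1 < m ^ (-γ⁻¹) := one_lt_rpow_of_pos_of_lt_one_of_neg h0 h1 (by
    have := inv_pos.mpr hγ
    linarith)
  linarith

theorem phi_sfun (hγ : 0 < γ) {M : ℝ} (h0 : 0 < M) (h1 : M < 1) : phi γ (sfun γ M) = M := by
  rw [phi, sfun, ← rpow_mul (neglog_pos h0 h1).le]
  have : -γ * -γ⁻¹ = 1 := by field_simp
  rw [this, rpow_one, neg_neg, exp_log h0]

theorem sfun_phi (hγ : 0 < γ) {m : ℝ} (h0 : 0 < m) : sfun γ (phi γ m) = m := by
  rw [phi, sfun, log_exp, neg_neg, ← rpow_mul h0.le]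
  have : -γ⁻¹ * -γ = 1 := by field_simp
  rw [this, rpow_one]

/-- `φ(m)/m` is nondecreasing on `(0,1]`. -/
theorem G_mono (hγ : 0 < γ) (hγ1 : γ ≤ 1) {m m' : ℝ} (h0 : 0 < m) (h : m ≤ m') (h1 : m' ≤ 1) :
    phi γ m / m ≤ phi γ m' / m' := by
  have h0' : 0 < m' := h0.trans_le h
  rw [div_le_div_iff₀ h0 h0', phi, phi]
  have hβ : 1 ≤ γ⁻¹ := (one_le_inv₀ hγ).mpr hγ1
  -- `x = -log m ≥ x' = -log m' ≥ 0`
  have hx : m ^ (-γ⁻¹) = exp (γ⁻¹ * (-log m)) := by
    rw [rpow_def_of_pos h0]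
    congr 1
    ring
  have hx' : m' ^ (-γ⁻¹) = exp (γ⁻¹ * (-log m')) := by
    rw [rpow_def_of_pos h0']
    congr 1
    ring
  have hl : log m ≤ log m' := log_le_log h0 h
  have hl' : log m' ≤ 0 := log_nonpos h0'.le h1
  have hm : m = exp (log m) := (exp_log h0).symm
  have hm' : m' = exp (log m') := (exp_log h0').symm
  set y := m ^ (-γ⁻¹) with hy
  set y' := m' ^ (-γ⁻¹) with hy'
  have key : log m' - log m ≤ y - y' := by
    have e1 : 1 ≤ y' := by
      rw [hx']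
      apply one_le_exp
      have : 0 ≤ -log m' := by linarith
      positivity
    have e2 : y = y' * exp (γ⁻¹ * (log m' - log m)) := by
      rw [hx, hx', ← exp_add]
      congr 1
      ring
    have e3 := add_one_le_exp (γ⁻¹ * (log m' - log m))
    have e4 : 0 ≤ log m' - log m := by linarith
    have e5 : log m' - log m ≤ γ⁻¹ * (log m' - log m) := by nlinarith
    rw [e2]
    have e6 : log m' - log m ≤ exp (γ⁻¹ * (log m' - log m)) - 1 := by linarith
    have e7 : 0 ≤ exp (γ⁻¹ * (log m' - log m)) - 1 := by linarith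
    nlinarith
  calc exp (-y) * m' = exp (-y + log m') := by rw [exp_add, ← hm']
    _ ≤ exp (-y' + log m) := exp_le_exp.mpr (by linarith)
    _ = exp (-y') * m := by rw [exp_add, ← hm]

/-- `φ` is Lipschitz on `(0,1]` with constant `2/γ`. -/
theorem phi_lip (hγ : 0 < γ) (hγ1 : γ ≤ 1) {t t' : ℝ} (h0 : 0 < t) (h : t ≤ t') (h1 : t' ≤ 1) :
    phi γ t' - phi γ t ≤ 2 / γ * (t' - t) := by
  have hd : ∀ x : ℝ, 0 < x → HasDerivAt (phi γ) (phi γ x * (γ⁻¹ * x ^ (-γ⁻¹ - 1))) x := by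
    intro x hx
    have h2 : HasDerivAt (fun x : ℝ => x ^ (-γ⁻¹)) (-γ⁻¹ * x ^ (-γ⁻¹ - 1)) x :=
      hasDerivAt_rpow_const (Or.inl hx.ne')
    have h3 : HasDerivAt (fun x : ℝ => exp (-(x ^ (-γ⁻¹))))
        (exp (-(x ^ (-γ⁻¹))) * -(-γ⁻¹ * x ^ (-γ⁻¹ - 1))) x := h2.fun_neg.exp
    have h4 : exp (-(x ^ (-γ⁻¹))) * -(-γ⁻¹ * x ^ (-γ⁻¹ - 1)) =
        phi γ x * (γ⁻¹ * x ^ (-γ⁻¹ - 1)) := by
      rw [phi]; ring
    rw [← h4]
    exact h3
  have hbound : ∀ x : ℝ, 0 < x → x ≤ 1 → phi γ x * (γ⁻¹ * x ^ (-γ⁻¹ - 1)) ≤ 2 / γ := by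
    intro x hx hx1
    have hβ : 1 ≤ γ⁻¹ := (one_le_inv₀ hγ).mpr hγ1
    set y := x ^ (-γ⁻¹) with hy
    have hy1 : 1 ≤ y := one_le_rpow_of_pos_of_le_one_of_nonpos hx hx1 (by linarith)
    have e1 : x ^ (-γ⁻¹ - 1) ≤ y * y := by
      rw [sub_eq_add_neg, rpow_add hx]
      have : x ^ (-1 : ℝ) ≤ x ^ (-γ⁻¹) := rpow_le_rpow_of_exponent_ge hx hx1 (by linarith)
      nlinarith
    have e2 := quadratic_le_exp_of_nonneg (by linarith : (0 : ℝ) ≤ y)
    have e3 : phi γ x * (y * y) ≤ 2 := by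
      rw [phi, exp_neg, ← hy, inv_mul_le_iff₀ (exp_pos _)]
      nlinarith
    have e4 : phi γ x * x ^ (-γ⁻¹ - 1) ≤ 2 := by
      have := mul_le_mul_of_nonneg_left e1 (phi_pos (γ := γ) x).le
      linarith
    calc phi γ x * (γ⁻¹ * x ^ (-γ⁻¹ - 1)) = γ⁻¹ * (phi γ x * x ^ (-γ⁻¹ - 1)) := by ring
      _ ≤ γ⁻¹ * 2 := mul_le_mul_of_nonneg_left e4 (inv_pos.mpr hγ).le
      _ = 2 / γ := by ring
  have hconv : Convex ℝ (Icc t t') := convex_Icc t t'
  apply hconv.image_sub_le_mul_sub_of_deriv_le _ _ _ t ⟨le_refl _, h⟩ t' ⟨h, le_refl _⟩ h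
  · intro x hx
    exact (hd x (h0.trans_le hx.1)).continuousAt.continuousWithinAt
  · intro x hx
    rw [interior_Icc] at hx
    exact (hd x (h0.trans hx.1)).differentiableAt.differentiableWithinAt
  · intro x hx
    rw [interior_Icc] at hx
    rw [(hd x (h0.trans hx.1)).deriv]
    exact hbound x (h0.trans hx.1) (hx.2.le.trans h1)

/-- `h(t,σ) = t φ(m)/m` with `m = max(|t|,σ)`. -/
def hfun (γ t σ : ℝ) : ℝ := t * (phi γ (max |t| σ) / max |t| σ)

theorem hfun_neg (t σ : ℝ) : hfun γ (-t) σ = -hfun γ t σ := by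
  rw [hfun, hfun, abs_neg]
  ring

theorem hfun_zero (σ : ℝ) : hfun γ 0 σ = 0 := by rw [hfun, zero_mul]

theorem G_nonneg {m : ℝ} (hm : 0 ≤ m) : 0 ≤ phi γ m / m := div_nonneg (phi_pos m).le hm

/-- lower bound for the slope, for `0 ≤ t ≤ t'`. -/
theorem hfun_lower (hγ : 0 < γ) (hγ1 : γ ≤ 1) {t t' σ : ℝ} (h0 : 0 ≤ t) (h : t ≤ t') (h1 : t' ≤ 1)
    (hσ0 : 0 ≤ σ) (hσ : σ ≤ 1) :
    (t' - t) * (phi γ (max |t| σ) / max |t| σ) ≤ hfun γ t' σ - hfun γ t σ := by
  rw [hfun, hfun, abs_of_nonneg h0, abs_of_nonneg (h0.trans h)]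
  rcases (le_max_of_le_left h0 : (0 : ℝ) ≤ max t σ).eq_or_lt with hm | hm
  · rw [← hm]
    have ht : t = 0 := le_antisymm (by rw [hm]; exact le_max_left _ _) h0
    rw [ht]
    simp only [div_zero, mul_zero, sub_zero]
    exact mul_nonneg (h0.trans h) (G_nonneg (le_max_of_le_right hσ0))
  · have := G_mono hγ hγ1 hm (max_le_max_right σ h) (max_le h1 hσ)
    nlinarith [h0.trans h]

/-- upper bound for the slope, for `0 ≤ t ≤ t'`. -/
theorem hfun_upper (hγ : 0 < γ) (hγ1 : γ ≤ 1) {t t' σ : ℝ} (h0 : 0 ≤ t) (h : t ≤ t') (h1 : t' ≤ 1)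
    (hσ0 : 0 ≤ σ) (hσ : σ ≤ 1) :
    hfun γ t' σ - hfun γ t σ ≤ 2 / γ * (t' - t) := by
  have h2γ : 2 ≤ 2 / γ := by
    rw [le_div_iff₀ hγ]; linarith
  have hG1 : ∀ m : ℝ, 0 < m → m ≤ 1 → phi γ m / m ≤ 1 := by
    intro m hm hm1
    have := G_mono hγ hγ1 hm hm1 le_rfl
    rw [phi_one, div_one] at this
    exact this.trans exp_neg_one_lt_one.le
  -- two basic cases
  have caseA : ∀ a b : ℝ, 0 ≤ a → a ≤ b → b ≤ σ → hfun γ b σ - hfun γ a σ ≤ 2 / γ * (b - a) := by
    intro a b ha hab hbσ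
    rw [hfun, hfun, abs_of_nonneg ha, abs_of_nonneg (ha.trans hab), max_eq_right hbσ,
      max_eq_right (hab.trans hbσ)]
    rcases hσ0.eq_or_lt with h | h
    · rw [← h]
      simp only [div_zero, mul_zero, sub_zero]
      have : 0 ≤ b - a := by linarith
      positivity
    · have := hG1 σ h hσ
      have h3 : 0 ≤ b - a := by linarith
      nlinarith
  have hval : ∀ a : ℝ, 0 < a → σ ≤ a → hfun γ a σ = phi γ a := by
    intro a ha haσ
    rw [hfun, abs_of_pos ha, max_eq_left haσ]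
    field_simp
  have caseB : ∀ a b : ℝ, 0 < a → σ ≤ a → a ≤ b → b ≤ 1 →
      hfun γ b σ - hfun γ a σ ≤ 2 / γ * (b - a) := by
    intro a b ha haσ hab hb
    rw [hval a ha haσ, hval b (ha.trans_le hab) (haσ.trans hab)]
    exact phi_lip hγ hγ1 ha hab hb
  rcases le_total t' σ with hc | hc
  · exact caseA t t' h0 h hc
  rcases h0.eq_or_lt with ht0 | ht0
  · -- `t = 0`
    rcases hσ0.eq_or_lt with hs | hs
    · rw [← ht0, hfun_zero, sub_zero, sub_zero]
      rcases (h0.trans h).eq_or_lt with h3 | h3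
      · rw [← h3, hfun_zero, mul_zero]
      · rw [hval t' h3 hc]
        have h4 := hG1 t' h3 h1
        rw [div_le_one h3] at h4
        nlinarith
    · have e1 := caseA 0 σ le_rfl hs.le le_rfl
      have e2 := caseB σ t' hs le_rfl hc h1
      rw [← ht0]
      linarith
  rcases le_total t σ with hd | hd
  · have e1 := caseA t σ h0 hd le_rfl
    rcases hσ0.eq_or_lt with hs | hs
    · have : t = 0 := by linarith
      exact absurd this ht0.ne'
    have e2 := caseB σ t' hs le_rfl hc h1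
    linarith
  · exact caseB t t' ht0 hd h h1

theorem hfun_lip_t (hγ : 0 < γ) (hγ1 : γ ≤ 1) {t t' σ : ℝ} (ht : |t| ≤ 1) (ht' : |t'| ≤ 1)
    (hσ0 : 0 ≤ σ) (hσ : σ ≤ 1) : |hfun γ t' σ - hfun γ t σ| ≤ 2 / γ * |t' - t| := by
  have key : ∀ a b : ℝ, |a| ≤ 1 → |b| ≤ 1 → a ≤ b →
      0 ≤ hfun γ b σ - hfun γ a σ ∧ hfun γ b σ - hfun γ a σ ≤ 2 / γ * (b - a) := by
    intro a b ha hb hab
    rw [abs_le] at ha hb
    have pos : ∀ a b : ℝ, 0 ≤ a → a ≤ b → b ≤ 1 →
        0 ≤ hfun γ b σ - hfun γ a σ ∧ hfun γ b σ - hfun γ a σ ≤ 2 / γ * (b - a) := by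
      intro a b ha hab hb
      refine ⟨le_trans ?_ (hfun_lower hγ hγ1 ha hab hb hσ0 hσ), hfun_upper hγ hγ1 ha hab hb hσ0 hσ⟩
      exact mul_nonneg (by linarith) (G_nonneg (le_max_of_le_right hσ0))
    rcases le_total 0 a with h | h
    · exact pos a b h hab hb.2
    rcases le_total b 0 with h' | h'
    · have e := pos (-b) (-a) (by linarith) (by linarith) (by linarith)
      rw [hfun_neg, hfun_neg] at e
      constructor <;> linarith [e.1, e.2]
    · have e1 := pos 0 (-a) le_rfl (by linarith) (by linarith)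
      have e2 := pos 0 b le_rfl h' hb.2
      rw [hfun_neg, hfun_zero] at e1
      rw [hfun_zero] at e2
      constructor <;> linarith [e1.1, e1.2, e2.1, e2.2]
  rcases le_total t t' with h | h
  · obtain ⟨h1, h2⟩ := key t t' ht ht' h
    rw [abs_of_nonneg h1, abs_of_nonneg (by linarith)]
    exact h2
  · obtain ⟨h1, h2⟩ := key t' t ht' ht h
    rw [abs_sub_comm, abs_of_nonneg h1, abs_sub_comm, abs_of_nonneg (by linarith)]
    exact h2

/-- Lipschitz bound in the second variable. -/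
theorem hfun_lip_r (hγ : 0 < γ) (hγ1 : γ ≤ 1) {t r r' : ℝ} (ht : |t| ≤ 1) (hr : 0 ≤ r)
    (h : r ≤ r') (hr' : r' ≤ exp (-1)) :
    |hfun γ t (sfun γ r') - hfun γ t (sfun γ r)| ≤ r' - r := by
  -- reduce to `0 < t`
  have main : ∀ t : ℝ, 0 < t → t ≤ 1 →
      |hfun γ t (sfun γ r') - hfun γ t (sfun γ r)| ≤ r' - r := by
    intro t ht0 ht1
    have hs : ∀ r : ℝ, 0 ≤ r → r ≤ exp (-1) → 0 ≤ sfun γ r ∧ sfun γ r ≤ 1 := by
      intro r h0 h1
      rcases h0.eq_or_lt with h | h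
      · rw [← h, sfun_zero hγ]; exact ⟨le_rfl, zero_le_one⟩
      · exact ⟨(sfun_pos h (h1.trans_lt exp_neg_one_lt_one)).le, sfun_le_one hγ h h1⟩
    obtain ⟨hs0, hs1⟩ := hs r hr (h.trans hr')
    obtain ⟨hs0', hs1'⟩ := hs r' (hr.trans h) hr'
    have hmono : sfun γ r ≤ sfun γ r' := by
      rcases hr.eq_or_lt with h3 | h3
      · rw [← h3, sfun_zero hγ]; exact hs0'
      · exact sfun_mono hγ h3 h (hr'.trans_lt exp_neg_one_lt_one)
    rw [hfun, hfun, abs_of_pos ht0]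
    set m := max t (sfun γ r) with hm
    set m' := max t (sfun γ r') with hm'
    have hm0 : 0 < m := lt_max_of_lt_left ht0
    have hmm : m ≤ m' := max_le_max_left t hmono
    have hm1 : m' ≤ 1 := max_le ht1 hs1'
    have htm : t ≤ m := le_max_left _ _
    have hG := G_mono hγ hγ1 hm0 hmm hm1
    have hphi := phi_mono hγ hm0 hmm
    rw [abs_of_nonneg (by nlinarith)]
    -- `φ(m') - φ(m) ≤ r' - r`
    have e1 : phi γ m' - phi γ m ≤ r' - r := by
      rcases le_total (sfun γ r') t with h3 | h3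
      · have : m' = m := by rw [hm, hm', max_eq_left h3, max_eq_left (hmono.trans h3)]
        rw [this]
        linarith
      · have h5 : 0 < r' := by
          rcases (hr.trans h).eq_or_lt with h6 | h6
          · rw [← h6, sfun_zero hγ] at h3
            linarith
          · exact h6
        have h4 : phi γ m' = r' := by
          rw [hm', max_eq_right h3, phi_sfun hγ h5 (hr'.trans_lt exp_neg_one_lt_one)]
        have h7 : r ≤ phi γ m := by
          rcases hr.eq_or_lt with h8 | h8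
          · rw [← h8]; exact (phi_pos _).le
          · calc r = phi γ (sfun γ r) := by
                  rw [phi_sfun hγ h8 ((h.trans hr').trans_lt exp_neg_one_lt_one)]
              _ ≤ phi γ m := phi_mono hγ (sfun_pos h8 ((h.trans hr').trans_lt exp_neg_one_lt_one))
                  (le_max_right _ _)
        rw [h4]
        linarith
    have e2 : phi γ m' / m' ≤ phi γ m' / m :=
      div_le_div_of_nonneg_left (phi_pos _).le hm0 hmm
    have e3 : t * (phi γ m' / m') - t * (phi γ m / m) ≤ t * ((phi γ m' - phi γ m) / m) := by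
      rw [sub_div]
      nlinarith
    have e4 : t * ((phi γ m' - phi γ m) / m) ≤ phi γ m' - phi γ m := by
      rw [← mul_div_assoc, div_le_iff₀ hm0]
      nlinarith
    linarith
  rw [abs_le] at ht
  rcases lt_trichotomy t 0 with h3 | h3 | h3
  · have := main (-t) (by linarith) (by linarith)
    rw [hfun_neg, hfun_neg, ← neg_sub', abs_neg] at this
    exact this
  · rw [h3, hfun_zero, hfun_zero, sub_zero, abs_zero]
    linarith
  · exact main t h3 ht.2

/-- `r ↦ (-log r)^(-β)` is continuous on `[0,1)`. -/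
theorem sfun_cont {β : ℝ} (hβ : 0 < β) : ContinuousOn (sfun β) (Ico 0 1) := by
  intro x hx
  rcases hx.1.eq_or_lt with h | h
  · rw [← h]
    have h1 : Filter.Tendsto (fun r : ℝ => -log r) (nhdsWithin 0 (Ioi 0)) Filter.atTop :=
      Filter.tendsto_neg_atBot_atTop.comp tendsto_log_nhdsGT_zero
    have h2 := (tendsto_rpow_neg_atTop hβ).comp h1
    have h3 : Filter.Tendsto (sfun β) (nhdsWithin 0 (Ioi 0)) (nhds (sfun β 0)) := by
      rw [sfun_zero hβ]
      exact h2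
    have h4 : ContinuousWithinAt (sfun β) (Ioi 0) 0 := h3
    have h5 : ContinuousWithinAt (sfun β) (insert 0 (Ioi 0)) 0 :=
      (continuousWithinAt_insert_self).mpr h4
    apply h5.mono
    intro y hy
    rcases hy.1.eq_or_lt with h6 | h6
    · rw [← h6]; exact mem_insert _ _
    · exact mem_insert_of_mem _ h6
  · have h1 : ContinuousAt (fun r : ℝ => -log r) x := (continuousAt_log h.ne').neg
    have h2 : ContinuousAt (fun r : ℝ => (-log r) ^ (-β)) x :=
      h1.rpow_const (Or.inl (neglog_pos h hx.2).ne')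
    exact h2.continuousWithinAt

/-- `(-log r)^(-1-β)/r` is integrable on `(0,c)`, `c<1`. -/
theorem int_log {β : ℝ} (hβ : 0 < β) {c : ℝ} (hc : c < 1) :
    MeasureTheory.IntegrableOn (fun r : ℝ => (-log r) ^ (-(1 + β)) / r) (Ioo 0 c) := by
  have key : MeasureTheory.IntegrableOn (fun r : ℝ => β * ((-log r) ^ (-(1 + β)) / r)) (Ioc 0 c) := by
    apply intervalIntegral.integrableOn_deriv_of_nonneg (g := sfun β)
    · apply (sfun_cont hβ).mono
      intro x hx
      exact ⟨hx.1, hx.2.trans_lt hc⟩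
    · intro x hx
      have h1 : HasDerivAt (fun r : ℝ => -log r) (-x⁻¹) x := (hasDerivAt_log hx.1.ne').fun_neg
      have h2 := h1.rpow_const (p := -β) (Or.inl (neglog_pos hx.1 (hx.2.trans hc)).ne')
      have e : β * ((-log x) ^ (-(1 + β)) / x) = -x⁻¹ * -β * (-log x) ^ (-β - 1) := by
        rw [show -(1 + β) = -β - 1 by ring, div_eq_mul_inv]
        ring
      rw [e]
      exact h2
    · intro x hx
      have := neglog_pos hx.1 (hx.2.trans hc)
      have h3 : 0 < x := hx.1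
      positivity
  have key2 : MeasureTheory.IntegrableOn
      (fun r : ℝ => β⁻¹ * (β * ((-log r) ^ (-(1 + β)) / r))) (Ioo 0 c) :=
    MeasureTheory.IntegrableOn.mono_set (key.const_mul β⁻¹) Ioo_subset_Ioc_self
  have e : (fun r : ℝ => β⁻¹ * (β * ((-log r) ^ (-(1 + β)) / r))) =
      fun r : ℝ => (-log r) ^ (-(1 + β)) / r := by
    funext r
    rw [← mul_assoc, inv_mul_cancel₀ hβ.ne', one_mul]
  rwa [e] at key2

end

end Pool.Agent.W5h49.Dist
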