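import Pool.Agent.W5h49.Dist.Det

set_option autoImplicit false

open Real Set MeasureTheory
open scoped NNReal

namespace Pool.Agent.W5h49.Dist

noncomputable section

/-- A Lipschitz map has its a.e. derivative as weak derivative. -/
theorem weak_lip {n : ℕ} {F : E n → E n} {C : ℝ≥0} (hF : LipschitzWith C F) {φ : E n → ℝ}
    (hφ : ContDiff ℝ ((⊤ : ℕ∞) : WithTop ℕ∞) φ) (hc : HasCompactSupport φ) (v : E n) :
    ∫ x, (fderiv ℝ φ x v) • F x = - ∫ x, φ x • (fderiv ℝ F x v) := by
  obtain ⟨D, hD⟩ := ContDiff.lipschitzWith_of_hasCompactSupport hc hφ (by simp)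
  have hdφ : Differentiable ℝ φ := hφ.differentiable (by simp)
  have hI1 : Integrable (fun x => (fderiv ℝ φ x v) • F x) := by
    apply Continuous.integrable_of_hasCompactSupport
    · exact ((hφ.continuous_fderiv (by simp)).clm_apply continuous_const).smul hF.continuous
    · exact (hc.fderiv_apply ℝ v).smul_right
  have hmeas : Measurable (fun x => fderiv ℝ F x v) := measurable_fderiv_apply_const ℝ F v
  have hI2 : Integrable (fun x => φ x • (fderiv ℝ F x v)) := by
    have h1 : Integrable φ := hφ.continuous.integrable_of_hasCompactSupport hc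
    refine (h1.norm.mul_const (C * ‖v‖)).mono' (hφ.continuous.measurable.smul hmeas).aestronglyMeasurable ?_
    filter_upwards with x
    rw [norm_smul]
    apply mul_le_mul_of_nonneg_left _ (norm_nonneg _)
    exact (ContinuousLinearMap.le_opNorm _ _).trans
      (mul_le_mul_of_nonneg_right (norm_fderiv_le_of_lipschitz ℝ hF) (norm_nonneg _))
  ext i
  have e1 : (∫ x, (fderiv ℝ φ x v) • F x) i = ∫ x, (fderiv ℝ φ x v) * (F x) i := by
    have := (EuclideanSpace.proj (𝕜 := ℝ) i).integral_comp_comm hI1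
    simpa using this.symm
  have e2 : (∫ x, φ x • (fderiv ℝ F x v)) i = ∫ x, φ x * (fderiv ℝ F x v) i := by
    have := (EuclideanSpace.proj (𝕜 := ℝ) i).integral_comp_comm hI2
    simpa using this.symm
  have hFi : LipschitzWith C (fun x => (F x) i) := by
    apply LipschitzWith.of_dist_le_mul
    intro x y
    have h1 := PiLp.norm_apply_le (F x - F y) i
    have h2 := hF.dist_le_mul x y
    rw [dist_eq_norm, Real.norm_eq_abs] at *
    simpa using h1.trans h2
  have key := LipschitzWith.integral_lineDeriv_mul_eq (μ := volume) hFi hD hc v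
  rw [PiLp.neg_apply, e1, e2]
  have a1 : ∫ x, lineDeriv ℝ (fun x => (F x) i) x v * φ x = ∫ x, φ x * (fderiv ℝ F x v) i := by
    apply integral_congr_ae
    filter_upwards [hF.ae_differentiableAt (μ := volume)] with x hx
    have h2 : HasFDerivAt (fun x => (F x) i) ((EuclideanSpace.proj (𝕜 := ℝ) i).comp (fderiv ℝ F x)) x :=
      (EuclideanSpace.proj (𝕜 := ℝ) i).hasFDerivAt.comp x hx.hasFDerivAt
    rw [h2.differentiableAt.lineDeriv_eq_fderiv, h2.fderiv, mul_comm]
    simp
  have a2 : ∫ x, lineDeriv ℝ φ x (-v) * (F x) i = - ∫ x, (fderiv ℝ φ x v) * (F x) i := by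
    rw [← integral_neg]
    congr 1
    funext x
    rw [(hdφ x).lineDeriv_eq_fderiv, map_neg]
    ring
  rw [a1, a2] at key
  rw [key, neg_neg]

theorem norm_fderiv_Fmap_le {k : ℕ} {γ : ℝ} (hγ : 0 < γ) (hγ1 : γ ≤ 1) (x : E (k + 1)) :
    ‖fderiv ℝ (Fmap γ : E (k + 1) → E (k + 1)) x‖ ≤ 2 / γ + 4 := by
  have := norm_fderiv_le_of_lipschitz ℝ (Fmap_lipW (k := k) hγ hγ1) (x₀ := x)
  rwa [Real.coe_toNNReal _ (by positivity)] at this

theorem continuous_det' {n : ℕ} : Continuous (fun A : E n →L[ℝ] E n => A.det) :=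
  ContinuousLinearMap.continuous_det

theorem abs_det_le {k : ℕ} {γ : ℝ} (hγ : 0 < γ) (hγ1 : γ ≤ 1) {x : E (k + 1)}
    (hx : DifferentiableAt ℝ (ufun γ : E (k + 1) → ℝ) x) :
    |(fderiv ℝ (Fmap γ : E (k + 1) → E (k + 1)) x).det| ≤ 2 / γ + 4 := by
  rw [det_fderiv hx]
  have h1 := norm_fderiv_le_of_lipschitz ℝ (ufun_lipW (k := k) hγ hγ1) (x₀ := x)
  rw [Real.coe_toNNReal _ (by positivity)] at h1
  have h2 := (fderiv ℝ (ufun γ : E (k + 1) → ℝ) x).le_opNorm (e0 k)
  rw [norm_e0, mul_one, Real.norm_eq_abs] at h2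
  have h3 := abs_add_le 1 (fderiv ℝ (ufun γ : E (k + 1) → ℝ) x (e0 k))
  rw [abs_one] at h3
  linarith

theorem Src_vol {k : ℕ} : volume (Src k) ≠ ⊤ := by
  have hsub : Src k ⊆ Metric.ball 0 2 := by
    intro y hy
    rw [Metric.mem_ball, dist_zero_right]
    have h1 := norm_le y
    have h2 := hy.1
    have h3 := hy.2
    have h4 := exp_neg_one_lt_one
    linarith
  exact ((measure_mono hsub).trans_lt measure_ball_lt_top).ne

end

end Pool.Agent.W5h49.Dist
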